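import Pool.Agent.H90.SRC.Targets

set_option autoImplicit false

open Finset
open Pool.Agent.H66.SLP Pool.Agent.H90.SRC

namespace Pool.Agent.H68.SRC

theorem cov_append {Y : Type} (u : List Y) (p : Y → ℝ) (L : List (RSys Y)) :
    ∀ (L' : List (RSys Y)) (α β γ : ℕ), Cov u p α L β → Cov u p β L' γ →
      Cov u p α (L ++ L') γ := by
  induction L with
  | nil =>
    intro L' α β γ h h'
    have h1 : α = β := h
    subst h1
    exact h'
  | cons S L ih =>
    intro L' α β γ h h'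
    obtain ⟨δ, hS, hc⟩ := h
    exact ⟨δ, hS, ih L' δ β γ hc h'⟩

theorem wt_nonneg {w : ℕ → ℝ} (hw : ∀ x, 0 ≤ w x) (a b : ℕ) : 0 ≤ wt w a b :=
  Finset.sum_nonneg fun x _ => hw x

theorem wt_add (w : ℕ → ℝ) {a b c : ℕ} (h : a ≤ b) (h' : b ≤ c) :
    wt w a b + wt w b c = wt w a c :=
  Finset.sum_Ico_consecutive w h h'

theorem pf_REC (hONE : T_ONE) (hLPA : T_LPA) (hPIE : T_PIE) (hRWD : T_RWD) (hSEG : T_SEG) :
    T_REC := by
  intro Y u p t hPr ht J
  have hT4 : (4 : ℕ) ≤ 2 ^ t := by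
    have h1 : (2 : ℕ) ^ 2 ≤ 2 ^ t := Nat.pow_le_pow_right (by norm_num) ht
    norm_num at h1 ⊢
    exact h1
  have hT4R : (4 : ℝ) ≤ (2 : ℝ) ^ t := by exact_mod_cast hT4
  induction J with
  | zero =>
    intro M α β lam θ hαβ _ hM _ _ hθ hI
    have h1 := hONE Y u p α β M θ hPr hαβ hM hI
    rw [pow_zero] at hθ
    exact absurd hθ (not_lt.2 h1)
  | succ J ih =>
    intro M α β lam θ hαβ hdvd hM hlam hlθ hθ hI
    have hθ1 : 1 ≤ θ := hONE Y u p α β M θ hPr hαβ hM hI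
    obtain ⟨c, hc⟩ := hdvd
    obtain ⟨Q, hQ⟩ : ∃ Q, Q = 2 ^ (t * J) * c := ⟨_, rfl⟩
    have hMQ : M = 2 ^ t * Q := by
      rw [hc, hQ, mul_add, mul_one, pow_add]
      ring
    have hQ1 : 1 ≤ Q := by
      rcases Nat.eq_zero_or_pos Q with h | h
      · rw [h, mul_zero] at hMQ
        omega
      · exact h
    have hQM : Q ≤ M := by
      rw [hMQ]
      exact Nat.le_mul_of_pos_left Q (by positivity)
    have hMR : (M : ℝ) = (2 : ℝ) ^ t * Q := by rw [hMQ]; push_cast; ring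
    have hQR : (1 : ℝ) ≤ Q := by exact_mod_cast hQ1
    obtain ⟨ι, i1, i2, z, s, e, w, hfam, hw, hcov, hpr, hineq⟩ :=
      hLPA Y u p α β M Q θ hPr hαβ hQM hQ1 hI
    have hw0 : ∀ x, 0 ≤ w x := fun x => (hw x).1
    have hsum0 : 0 ≤ ∑ i, p (z i) :=
      Finset.sum_nonneg fun i _ => le_trans zero_le_one (hPr (z i)).1
    obtain ⟨W, hW⟩ : ∃ W, W = wt w α β := ⟨_, rfl⟩
    have hW0 : 0 ≤ W := by rw [hW]; exact wt_nonneg hw0 _ _
    rw [← hW] at hineq
    have hW1 : ((2 : ℝ) ^ t - 1) * W ≤ (2 : ℝ) ^ t * θ := by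
      have h1 : ((2 : ℝ) ^ t * Q - Q) * W ≤ (2 : ℝ) ^ t * Q * θ := by
        rw [← hMR]
        linarith
      have h2 : (Q : ℝ) * (((2 : ℝ) ^ t - 1) * W) ≤ (Q : ℝ) * ((2 : ℝ) ^ t * θ) := by
        linarith
      exact le_of_mul_le_mul_left h2 (by linarith)
    have hW2 : W ≤ 2 * θ := by
      nlinarith [mul_nonneg (by linarith : (0 : ℝ) ≤ (2 : ℝ) ^ t - 4) (by linarith : (0 : ℝ) ≤ θ),
        mul_nonneg (by linarith : (0 : ℝ) ≤ (2 : ℝ) ^ t - 4) hW0]
    have hbig : lam * (2 * θ + 5) ≤ 7 * 2 ^ t * 2 ^ (J + 1) * (Q : ℝ) := by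
      have h1 : lam * (2 * θ + 5) ≤ 7 * (lam * θ) := by nlinarith
      have h2 : (1 : ℝ) ≤ 2 ^ (J + 1) := one_le_pow₀ (by norm_num)
      have h3 : (0 : ℝ) ≤ 7 * (2 ^ t * (Q : ℝ)) := by positivity
      calc lam * (2 * θ + 5) ≤ 7 * (lam * θ) := h1
        _ ≤ 7 * (2 ^ t * (Q : ℝ)) := by rw [← hMR]; linarith
        _ ≤ 7 * (2 ^ t * (Q : ℝ)) * 2 ^ (J + 1) := le_mul_of_one_le_right h3 h2
        _ = _ := by ring
    -- pieces which are realized directly
    have hpiece : ∀ x y : ℕ, α ≤ x → x ≤ y → y ≤ β → ∃ L' : List (RSys Y), Cov u p x L' y ∧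
        L'.length ≤ 1 ∧ (L'.map fun S => S.W).sum ≤ wt w x y + 4 ∧
        ∀ S ∈ L', 0 < S.W ∧ S.W ≤ 2 * θ + 4 ∧ S.Q ∣ M ∧
          lam * (S.W + 1) ≤ 7 * 2 ^ t * 2 ^ (J + 1) * S.Q := by
      intro x y hx hxy hy
      rcases Nat.eq_or_lt_of_le hxy with h | h
      · subst h
        refine ⟨[], rfl, by simp, ?_, by simp⟩
        have := wt_nonneg hw0 x x
        simp only [List.map_nil, List.sum_nil]
        linarith
      · obtain ⟨S, hS, hSQ, hSW⟩ := hSEG Y u p α β x y Q ι z s e w hPr hfam hw0 hcov hpr hQ1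
          hx h hy
        have h0 := wt_nonneg hw0 x y
        have h1 : wt w x y ≤ W := by
          rw [hW, ← wt_add w hx (h.le.trans hy), ← wt_add w h.le hy]
          have h2 := wt_nonneg hw0 α x
          have h3 := wt_nonneg hw0 y β
          linarith
        refine ⟨[S], ⟨y, hS, rfl⟩, by simp, ?_, ?_⟩
        · simp only [List.map_cons, List.map_nil, List.sum_cons, List.sum_nil, add_zero]
          exact hSW.le
        · intro S' hS'
          rw [List.mem_singleton] at hS'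
          subst hS'
          rw [hSW, hSQ]
          refine ⟨by linarith, by linarith, ⟨2 ^ t, by rw [hMQ]; ring⟩, ?_⟩
          refine le_trans ?_ hbig
          exact mul_le_mul_of_nonneg_left (by linarith) hlam.le
    by_cases hcase : W ≤ θ + 6
    · obtain ⟨L, hL, hlen, hLs, hLp⟩ := hpiece α β le_rfl hαβ.le le_rfl
      refine ⟨L, hL, by omega, ?_, hLp⟩
      rw [← hW] at hLs
      push_cast
      have : (0 : ℝ) ≤ J := Nat.cast_nonneg J
      linarith
    · push Not at hcase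
      obtain ⟨cc, hmono, hc0, hcT, hpie⟩ := hPIE w α β (2 ^ t) hαβ (by omega) hw
      have hineq' : (((2 ^ t * Q : ℕ) : ℝ) - Q) * wt w α β ≤
          ((2 ^ t * Q : ℕ) : ℝ) * θ - ∑ i, p (z i) := by
        rw [← hMQ, ← hW]
        exact hineq
      obtain ⟨j, hj, hlt, hInst⟩ := hRWD Y u p α β Q (2 ^ t) θ ι z s e w cc hPr (by omega) hQ1
        hfam hw0 hcov hpr hmono hc0 hcT hineq' (by rw [← hW]; linarith)
      have hab : α ≤ cc j := by rw [← hc0]; exact hmono (Nat.zero_le j)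
      have hbβ : cc (j + 1) ≤ β := by rw [← hcT]; exact hmono (by omega)
      have hpj := hpie j hj
      rw [← hW] at hInst hpj
      obtain ⟨θ1, hθ1d⟩ : ∃ θ1, θ1 = wt w (cc j) (cc (j + 1)) - (W - θ) + 4 := ⟨_, rfl⟩
      rw [← hθ1d] at hInst
      have hTpos : (0 : ℝ) < (2 : ℝ) ^ t := by positivity
      have h1 : θ1 ≤ W / 2 ^ t := by
        push_cast at hpj
        linarith
      have h2 : θ1 ≤ 2 * θ / 2 ^ t := h1.trans (div_le_div_of_nonneg_right hW2 hTpos.le)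
      have h3 : θ1 < ((2 : ℝ) ^ t / 2) ^ J := by
        refine lt_of_le_of_lt h2 ?_
        rw [div_lt_iff₀ hTpos]
        have h4 : ((2 : ℝ) ^ t / 2) ^ (J + 1) = ((2 : ℝ) ^ t / 2) ^ J * 2 ^ t / 2 := by
          rw [pow_succ]; ring
        rw [h4] at hθ
        linarith
      have h4 : θ1 ≤ θ := by
        refine h2.trans ?_
        rw [div_le_iff₀ hTpos]
        nlinarith
      have h5 : lam / 2 * θ1 ≤ (Q : ℝ) := by
        have h6 : lam / 2 * θ1 ≤ lam / 2 * (2 * θ / 2 ^ t) :=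
          mul_le_mul_of_nonneg_left h2 (by linarith)
        have h7 : lam / 2 * (2 * θ / 2 ^ t) = lam * θ / 2 ^ t := by ring
        rw [h7] at h6
        refine h6.trans ?_
        rw [div_le_iff₀ hTpos]
        rw [hMR] at hlθ
        linarith
      obtain ⟨L1, hL1, hlen1, hs1, hp1⟩ := ih Q (cc j) (cc (j + 1)) (lam / 2) θ1 hlt
        ⟨c, hQ⟩ hQ1 (by linarith) h5 h3 hInst
      obtain ⟨L0, hL0, hlen0, hs0, hp0⟩ := hpiece α (cc j) le_rfl hab (hlt.le.trans hbβ)
      obtain ⟨L2, hL2, hlen2, hs2, hp2⟩ := hpiece (cc (j + 1)) β (hab.trans hlt.le) hbβ le_rfl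
      refine ⟨L0 ++ (L1 ++ L2), ?_, ?_, ?_, ?_⟩
      · exact cov_append u p L0 _ _ _ _ hL0 (cov_append u p L1 _ _ _ _ hL1 hL2)
      · rw [List.length_append, List.length_append]
        omega
      · rw [List.map_append, List.map_append, List.sum_append, List.sum_append]
        have h6 : wt w α (cc j) + wt w (cc j) (cc (j + 1)) + wt w (cc (j + 1)) β = W := by
          rw [wt_add w hab hlt.le, wt_add w (hab.trans hlt.le) hbβ, hW]
        push_cast
        linarith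
      · intro S hS
        rcases List.mem_append.1 hS with h | h
        · exact hp0 S h
        rcases List.mem_append.1 h with h | h
        · obtain ⟨ha, hb, hd, he⟩ := hp1 S h
          refine ⟨ha, by linarith, hd.trans ⟨2 ^ t, by rw [hMQ]; ring⟩, ?_⟩
          have h6 : (7 : ℝ) * 2 ^ t * 2 ^ (J + 1) * (S.Q : ℝ) = 2 * (7 * 2 ^ t * 2 ^ J * S.Q) := by
            rw [pow_succ]; ring
          rw [h6]
          linarith
        · exact hp2 S h

end Pool.Agent.H68.SRC
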